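import Mathlib

set_option autoImplicit false

open scoped ContDiff Topology ComplexOrder
open MeasureTheory Set Filter Metric

namespace Pool.Agent.Results.MP_8f0dee_an.LelongObstruction

variable {n : ℕ}

/-- Second real derivative: derivative in direction `v` of the derivative in direction `w`. -/
noncomputable def hess (f : (Fin n → ℂ) → ℝ) (z v w : Fin n → ℂ) : ℝ :=
  fderiv ℝ (fun x => fderiv ℝ f x w) z v

/-- The direction `∂/∂x_j`. -/
noncomputable def eR (j : Fin n) : Fin n → ℂ := Pi.single j 1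

/-- The direction `∂/∂y_j`. -/
noncomputable def eI (j : Fin n) : Fin n → ℂ := Pi.single j Complex.I

/-- The complex Hessian `∂²f/∂z_j∂z̄_k`. -/
noncomputable def cHess (f : (Fin n → ℂ) → ℝ) (z : Fin n → ℂ) : Matrix (Fin n) (Fin n) ℂ :=
  Matrix.of fun j k =>
    (((hess f z (eR j) (eR k) + hess f z (eI j) (eI k) : ℝ) : ℂ)
      + ((hess f z (eR j) (eI k) - hess f z (eI j) (eR k) : ℝ) : ℂ) * Complex.I) / 4

lemma log_det_le {H : Matrix (Fin n) (Fin n) ℂ} (hH : H.PosDef) {ρ : ℝ} (hρ : 0 < ρ) :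
    Real.log (H.det.re) ≤ ρ ^ 2 * H.trace.re - 2 * n * Real.log ρ := by
  have h1 := hH.1.det_eq_prod_eigenvalues
  have h2 := hH.1.trace_eq_sum_eigenvalues
  have h3 : H.det.re = ∏ i, hH.1.eigenvalues i := by
    rw [h1]; norm_cast
  have h4 : H.trace.re = ∑ i, hH.1.eigenvalues i := by
    rw [h2]; norm_cast
  have hp : ∀ i, 0 < hH.1.eigenvalues i := fun i => hH.eigenvalues_pos i
  rw [h3, h4, Real.log_prod (fun i _ => (hp i).ne'), Finset.mul_sum]
  have h5 : ∀ i, Real.log (hH.1.eigenvalues i) ≤ ρ ^ 2 * hH.1.eigenvalues i - 2 * Real.log ρ := by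
    intro i
    have h6 := Real.log_le_sub_one_of_pos (mul_pos (pow_pos hρ 2) (hp i))
    rw [Real.log_mul (by positivity) (hp i).ne', Real.log_pow] at h6
    push_cast at h6
    linarith
  calc ∑ i, Real.log (hH.1.eigenvalues i) ≤ ∑ i, (ρ ^ 2 * hH.1.eigenvalues i - 2 * Real.log ρ) :=
        Finset.sum_le_sum fun i _ => h5 i
    _ = _ := by
        rw [Finset.sum_sub_distrib]; simp; ring

lemma trace_cHess (f : (Fin n → ℂ) → ℝ) (z : Fin n → ℂ) :
    (cHess f z).trace.re = (∑ j, (hess f z (eR j) (eR j) + hess f z (eI j) (eI j))) / 4 := by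
  simp only [Matrix.trace, Matrix.diag, cHess, Matrix.of_apply, Complex.re_sum]
  rw [Finset.sum_div]
  refine Finset.sum_congr rfl fun j _ => ?_
  have : ∀ z : ℂ, (z / 4).re = z.re / 4 := by
    intro z
    exact Complex.div_ofNat_re z 4
  rw [this]
  simp

/-- Product of a continuous function supported in the closed unit ball with a function continuous
near that ball. -/
lemma int_mul {η G : (Fin n → ℂ) → ℝ} (hη : Continuous η)
    (hs : ∀ x, x ∉ closedBall (0 : Fin n → ℂ) 1 → η x = 0)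
    (hG : ContinuousOn G (closedBall (0 : Fin n → ℂ) 1)) :
    Integrable (fun x => η x * G x) := by
  have h1 : IntegrableOn (fun x => η x * G x) (closedBall (0 : Fin n → ℂ) 1) :=
    (hη.continuousOn.mul hG).integrableOn_compact (isCompact_closedBall _ _)
  refine h1.integrable_of_forall_notMem_eq_zero fun x hx => ?_
  rw [hs x hx, zero_mul]

lemma ibp2 {O : Set (Fin n → ℂ)} (hO : IsOpen O) (hB : closedBall (0 : Fin n → ℂ) 1 ⊆ O)
    {f η η1 η2 : (Fin n → ℂ) → ℝ} {v : Fin n → ℂ} (hf : ContDiffOn ℝ 2 f O)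
    (c0 : Continuous η) (c1 : Continuous η1) (c2 : Continuous η2)
    (z0 : ∀ x, x ∉ closedBall (0 : Fin n → ℂ) 1 → η x = 0)
    (z1 : ∀ x, x ∉ closedBall (0 : Fin n → ℂ) 1 → η1 x = 0)
    (z2 : ∀ x, x ∉ closedBall (0 : Fin n → ℂ) 1 → η2 x = 0)
    (d0 : ∀ x, HasLineDerivAt ℝ η (η1 x) x v) (d1 : ∀ x, HasLineDerivAt ℝ η1 (η2 x) x v) :
    ∫ x, η x * hess f x v v = ∫ x, η2 x * f x := by
  have hf1 : ContDiffOn ℝ 1 (fun x => fderiv ℝ f x v) O := by
    have := (hf.fderiv_of_isOpen hO (m := 1) (by norm_num)).clm_apply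
      (contDiffOn_const (c := v))
    exact this
  have hf2 : ContinuousOn (fun x => hess f x v v) O := by
    have := (hf1.fderiv_of_isOpen hO (m := 0) (by norm_num)).clm_apply
      (contDiffOn_const (c := v))
    exact this.continuousOn
  have ts : ∀ {ξ : (Fin n → ℂ) → ℝ}, (∀ x, x ∉ closedBall (0 : Fin n → ℂ) 1 → ξ x = 0) →
      ∀ x ∈ tsupport ξ, x ∈ O := by
    intro ξ hξ x hx
    refine hB ?_
    have : tsupport ξ ⊆ closedBall (0 : Fin n → ℂ) 1 := by
      refine closure_minimal ?_ isClosed_closedBall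
      intro y hy
      by_contra hc
      exact hy (hξ y hc)
    exact this hx
  have e1 := integral_bilinear_hasLineDerivAt_right_eq_neg_left_of_integrable
    (μ := (volume : Measure (Fin n → ℂ))) (B := ContinuousLinearMap.mul ℝ ℝ)
    (f := η) (f' := η1) (g := fun x => fderiv ℝ f x v) (g' := fun x => hess f x v v) (v := v)
    (int_mul c1 z1 (hf1.continuousOn.mono hB)) (int_mul c0 z0 (hf2.mono hB))
    (int_mul c0 z0 (hf1.continuousOn.mono hB)) (fun x _ => d0 x)
    (fun x hx => by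
      have hx' : x ∈ O := ts z0 x hx
      have : DifferentiableAt ℝ (fun x => fderiv ℝ f x v) x :=
        (hf1.differentiableOn (by norm_num)).differentiableAt (hO.mem_nhds hx')
      exact this.hasFDerivAt.hasLineDerivAt v)
  have e2 := integral_bilinear_hasLineDerivAt_right_eq_neg_left_of_integrable
    (μ := (volume : Measure (Fin n → ℂ))) (B := ContinuousLinearMap.mul ℝ ℝ)
    (f := η1) (f' := η2) (g := f) (g' := fun x => fderiv ℝ f x v) (v := v)
    (int_mul c2 z2 (hf.continuousOn.mono hB)) (int_mul c1 z1 (hf1.continuousOn.mono hB))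
    (int_mul c1 z1 (hf.continuousOn.mono hB)) (fun x _ => d1 x)
    (fun x hx => by
      have hx' : x ∈ O := ts z1 x hx
      have : DifferentiableAt ℝ f x :=
        (hf.differentiableOn (by norm_num)).differentiableAt (hO.mem_nhds hx')
      exact this.hasFDerivAt.hasLineDerivAt v)
  simp only [ContinuousLinearMap.mul_apply'] at e1 e2
  rw [e1, e2, neg_neg]


/-! ### The bump function `(1 - |x|²)_+³` -/

/-- squared Euclidean norm -/
noncomputable def N (x : Fin n → ℂ) : ℝ := ∑ j, ((x j).re ^ 2 + (x j).im ^ 2)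

/-- `(1 - |x|²)_+` -/
noncomputable def q (x : Fin n → ℂ) : ℝ := max (1 - N x) 0

lemma N_cont : Continuous (N : (Fin n → ℂ) → ℝ) := by
  unfold N; fun_prop

lemma q_cont : Continuous (q : (Fin n → ℂ) → ℝ) := by
  unfold q; exact (continuous_const.sub N_cont).max continuous_const

lemma q_nonneg (x : Fin n → ℂ) : 0 ≤ q x := le_max_right _ _

lemma q_zero (x : Fin n → ℂ) (hx : x ∉ closedBall (0 : Fin n → ℂ) 1) : q x = 0 := by
  rw [mem_closedBall_zero_iff, not_le] at hx
  have : ∃ j, 1 < ‖x j‖ := by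
    by_contra hc
    push Not at hc
    have := (pi_norm_le_iff_of_nonneg (x := x) zero_le_one).2 hc
    linarith
  obtain ⟨j, hj⟩ := this
  have h1 : (x j).re ^ 2 + (x j).im ^ 2 = ‖x j‖ ^ 2 := by
    rw [← Complex.normSq_eq_norm_sq, Complex.normSq_apply]; ring
  have h2 : (x j).re ^ 2 + (x j).im ^ 2 ≤ N x :=
    Finset.single_le_sum (f := fun j => (x j).re ^ 2 + (x j).im ^ 2)
      (fun i _ => by positivity) (Finset.mem_univ j)
  have h3 : 1 < N x := by
    rw [h1] at h2
    nlinarith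
  unfold q
  rw [max_eq_right]; linarith

lemma hasDerivAt_m2 (y : ℝ) : HasDerivAt (fun t : ℝ => (max t 0) ^ 2) (2 * max y 0) y := by
  rcases lt_trichotomy y 0 with h | h | h
  · rw [max_eq_right h.le, mul_zero]
    refine (hasDerivAt_const y (0 : ℝ)).congr_of_eventuallyEq ?_
    filter_upwards [gt_mem_nhds h] with t ht
    rw [max_eq_right ht.le]; norm_num
  · subst h
    rw [max_self, mul_zero, hasDerivAt_iff_isLittleO]
    simp only [sub_zero, max_self, smul_zero]
    norm_num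
    refine Asymptotics.IsBigO.trans_isLittleO (g := fun t : ℝ => t ^ 2) ?_ ?_
    · refine Asymptotics.IsBigO.of_bound 1 (Filter.Eventually.of_forall fun t => ?_)
      rw [one_mul, Real.norm_eq_abs, Real.norm_eq_abs, abs_of_nonneg (by positivity),
        abs_of_nonneg (by positivity)]
      rcases le_total t 0 with h | h
      · rw [max_eq_right h, zero_pow (by norm_num)]; exact sq_nonneg t
      · rw [max_eq_left h]
    · have := Asymptotics.isLittleO_pow_id (𝕜 := ℝ) (n := 2) (by norm_num)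
      simpa using this
  · rw [max_eq_left h.le]
    have h1 : HasDerivAt (fun t : ℝ => t ^ 2) (2 * y) y := by
      simpa using hasDerivAt_pow 2 y
    refine h1.congr_of_eventuallyEq ?_
    filter_upwards [lt_mem_nhds h] with t ht
    rw [max_eq_left ht.le]

lemma m3_eq (t : ℝ) : (max t 0) ^ 3 = t * (max t 0) ^ 2 := by
  rcases le_total t 0 with h | h
  · rw [max_eq_right h]; norm_num
  · rw [max_eq_left h]; ring

lemma hasDerivAt_m3 (y : ℝ) : HasDerivAt (fun t : ℝ => (max t 0) ^ 3) (3 * (max y 0) ^ 2) y := by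
  have h1 := (hasDerivAt_id y).mul (hasDerivAt_m2 y)
  have h2 : (fun t : ℝ => (max t 0) ^ 3) = (id * fun t : ℝ => (max t 0) ^ 2) := by
    funext t; simp [m3_eq]
  rw [h2]
  refine h1.congr_deriv ?_
  rcases le_total y 0 with h | h
  · simp [max_eq_right h]
  · simp [max_eq_left h]; ring

lemma N_line (x v : Fin n → ℂ) (t : ℝ) : N (x + t • v) =
    N x + 2 * t * (∑ j, ((x j).re * (v j).re + (x j).im * (v j).im)) + t ^ 2 * N v := by
  unfold N
  rw [Finset.mul_sum, Finset.mul_sum, ← Finset.sum_add_distrib, ← Finset.sum_add_distrib]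
  refine Finset.sum_congr rfl fun j _ => ?_
  simp only [Pi.add_apply, Pi.smul_apply, Complex.add_re, Complex.add_im, Complex.real_smul,
    Complex.mul_re, Complex.mul_im, Complex.ofReal_re, Complex.ofReal_im]
  ring

/-- inner product -/
noncomputable def ip (x v : Fin n → ℂ) : ℝ := ∑ j, ((x j).re * (v j).re + (x j).im * (v j).im)

lemma ip_line (x v : Fin n → ℂ) (t : ℝ) : ip (x + t • v) v = ip x v + t * N v := by
  unfold ip N
  rw [Finset.mul_sum, ← Finset.sum_add_distrib]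
  refine Finset.sum_congr rfl fun j _ => ?_
  simp only [Pi.add_apply, Pi.smul_apply, Complex.add_re, Complex.add_im, Complex.real_smul,
    Complex.mul_re, Complex.mul_im, Complex.ofReal_re, Complex.ofReal_im]
  ring

lemma ip_cont (v : Fin n → ℂ) : Continuous (fun x => ip x v) := by
  unfold ip; fun_prop

lemma hasDerivAt_oneN (x v : Fin n → ℂ) :
    HasDerivAt (fun t : ℝ => 1 - N (x + t • v)) (-2 * ip x v) 0 := by
  have h1 : (fun t : ℝ => 1 - N (x + t • v)) =
      fun t : ℝ => 1 - (N x + 2 * t * ip x v + t ^ 2 * N v) := by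
    funext t; rw [N_line]; rfl
  rw [h1]
  have h2 : HasDerivAt (fun t : ℝ => 1 - (N x + 2 * t * ip x v + t ^ 2 * N v))
      (0 - (0 + 2 * 1 * ip x v + (2 * (0:ℝ) ^ 1 * 1) * N v)) 0 := by
    refine (hasDerivAt_const _ _).sub (((hasDerivAt_const _ _).add ?_).add ?_)
    · exact ((hasDerivAt_id (0:ℝ)).const_mul 2).mul_const _
    · have := ((hasDerivAt_id (0:ℝ)).pow 2).mul_const (N v)
      simpa using this
  exact h2.congr_deriv (by ring)

lemma line0 (x v : Fin n → ℂ) :
    HasLineDerivAt ℝ (fun x : Fin n → ℂ => q x ^ 3) (-6 * ip x v * q x ^ 2) x v := by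
  unfold HasLineDerivAt
  have h1 := (hasDerivAt_m3 (1 - N (x + (0:ℝ) • v))).comp (0:ℝ) (hasDerivAt_oneN x v)
  refine h1.congr_deriv ?_
  simp only [q, zero_smul, add_zero]
  ring

lemma line1 (x v : Fin n → ℂ) :
    HasLineDerivAt ℝ (fun x : Fin n → ℂ => -6 * ip x v * q x ^ 2)
      (24 * ip x v ^ 2 * q x - 6 * N v * q x ^ 2) x v := by
  unfold HasLineDerivAt
  have h1 := (hasDerivAt_m2 (1 - N (x + (0:ℝ) • v))).comp (0:ℝ) (hasDerivAt_oneN x v)
  have h2 : HasDerivAt (fun t : ℝ => -6 * (ip x v + t * N v)) (-6 * (0 + 1 * N v)) 0 :=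
    ((hasDerivAt_const _ _).add ((hasDerivAt_id (0:ℝ)).mul_const _)).const_mul _
  have h3 := h2.mul h1
  have h4 : (fun t : ℝ => -6 * ip (x + t • v) v * q (x + t • v) ^ 2) =
    ((fun t : ℝ => -6 * (ip x v + t * N v)) *
      ((fun t : ℝ => (max t 0) ^ 2) ∘ fun t : ℝ => 1 - N (x + t • v))) := by
    funext t
    simp only [ip_line, Pi.mul_apply, Function.comp, q]
  rw [h4]
  refine h3.congr_deriv ?_
  simp only [q, Function.comp, zero_smul, add_zero, zero_mul]
  ring

lemma N_eR (j : Fin n) : N (eR j) = 1 := by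
  unfold N eR
  rw [Finset.sum_eq_single j]
  · simp
  · intro b _ hb; simp [Pi.single_eq_of_ne hb]
  · simp

lemma N_eI (j : Fin n) : N (eI j) = 1 := by
  unfold N eI
  rw [Finset.sum_eq_single j]
  · simp
  · intro b _ hb; simp [Pi.single_eq_of_ne hb]
  · simp

lemma ip_eR (x : Fin n → ℂ) (j : Fin n) : ip x (eR j) = (x j).re := by
  unfold ip eR
  rw [Finset.sum_eq_single j]
  · simp
  · intro b _ hb; simp [Pi.single_eq_of_ne hb]
  · simp

lemma ip_eI (x : Fin n → ℂ) (j : Fin n) : ip x (eI j) = (x j).im := by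
  unfold ip eI
  rw [Finset.sum_eq_single j]
  · simp
  · intro b _ hb; simp [Pi.single_eq_of_ne hb]
  · simp

/-- The constant in `Δη ≥ -4 k η`. -/
noncomputable def kk (n : ℕ) : ℝ := 3 / 8 * (n + 2) ^ 2

lemma bump_ineq (x : Fin n → ℂ) :
    - (4 * kk n * q x ^ 3) ≤ ∑ j, ((24 * ip x (eR j) ^ 2 * q x - 6 * N (eR j) * q x ^ 2)
      + (24 * ip x (eI j) ^ 2 * q x - 6 * N (eI j) * q x ^ 2)) := by
  have h1 : ∑ j, ((24 * ip x (eR j) ^ 2 * q x - 6 * N (eR j) * q x ^ 2)
      + (24 * ip x (eI j) ^ 2 * q x - 6 * N (eI j) * q x ^ 2)) =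
      24 * q x * N x - 12 * n * q x ^ 2 := by
    have : ∀ j, ((24 * ip x (eR j) ^ 2 * q x - 6 * N (eR j) * q x ^ 2)
      + (24 * ip x (eI j) ^ 2 * q x - 6 * N (eI j) * q x ^ 2)) =
      24 * q x * ((x j).re ^ 2 + (x j).im ^ 2) - 12 * q x ^ 2 := by
      intro j
      rw [ip_eR, ip_eI, N_eR, N_eI]; ring
    rw [Finset.sum_congr rfl fun j _ => this j, Finset.sum_sub_distrib, ← Finset.mul_sum]
    simp [N]; ring
  rw [h1]
  unfold kk
  have h0 := q_nonneg x
  rcases le_total (1 - N x) 0 with h | h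
  · have : q x = 0 := max_eq_right h
    rw [this]; norm_num
  · have : q x = 1 - N x := max_eq_left h
    have h2 : N x = 1 - q x := by linarith
    rw [h2]
    have h3 : 0 ≤ q x * (24 * (1 - (n + 2) * q x / 4) ^ 2) := by positivity
    nlinarith [h3]

lemma ibp_bump {O : Set (Fin n → ℂ)} (hO : IsOpen O) (hB : closedBall (0 : Fin n → ℂ) 1 ⊆ O)
    {f : (Fin n → ℂ) → ℝ} (hf : ContDiffOn ℝ 2 f O) (hf0 : ∀ x ∈ O, 0 ≤ f x) :
    - (4 * kk n * ∫ x, q x ^ 3 * f x) ≤
      ∫ x, q x ^ 3 * ∑ j, (hess f x (eR j) (eR j) + hess f x (eI j) (eI j)) := by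
  have hq0 : ∀ (m : ℕ) (x : Fin n → ℂ), m ≠ 0 → x ∉ closedBall (0 : Fin n → ℂ) 1 → q x ^ m = 0 := by
    intro m x hm hx; rw [q_zero x hx, zero_pow hm]
  have main : ∀ v : Fin n → ℂ, ∫ x, q x ^ 3 * hess f x v v =
      ∫ x, (24 * ip x v ^ 2 * q x - 6 * N v * q x ^ 2) * f x := by
    intro v
    have hc := ip_cont (n := n) v
    have hq := q_cont (n := n)
    refine ibp2 hO hB hf (η := fun x => q x ^ 3) (η1 := fun x => -6 * ip x v * q x ^ 2)
      (η2 := fun x => 24 * ip x v ^ 2 * q x - 6 * N v * q x ^ 2) (by fun_prop) (by fun_prop)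
      (by fun_prop) ?_ ?_ ?_ (fun x => line0 x v) (fun x => line1 x v)
    · intro x hx; exact hq0 3 x (by norm_num) hx
    · intro x hx; show -6 * ip x v * q x ^ 2 = 0; rw [hq0 2 x (by norm_num) hx, mul_zero]
    · intro x hx
      show 24 * ip x v ^ 2 * q x - 6 * N v * q x ^ 2 = 0
      rw [q_zero x hx]; ring
  have hhc : ∀ v : Fin n → ℂ, ContinuousOn (fun x => hess f x v v) O := by
    intro v
    have hf1 : ContDiffOn ℝ 1 (fun x => fderiv ℝ f x v) O :=
      (hf.fderiv_of_isOpen hO (m := 1) (by norm_num)).clm_apply (contDiffOn_const (c := v))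
    have := (hf1.fderiv_of_isOpen hO (m := 0) (by norm_num)).clm_apply
      (contDiffOn_const (c := v))
    exact this.continuousOn
  have hi1 : ∀ v : Fin n → ℂ, Integrable (fun x => q x ^ 3 * hess f x v v) := fun v =>
    int_mul (by have := q_cont (n := n); fun_prop) (fun x hx => hq0 3 x (by norm_num) hx)
      ((hhc v).mono hB)
  have hi2 : ∀ v : Fin n → ℂ,
      Integrable (fun x => (24 * ip x v ^ 2 * q x - 6 * N v * q x ^ 2) * f x) := fun v =>
    int_mul (by have := q_cont (n := n); have := ip_cont (n := n) v; fun_prop)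
      (fun x hx => by rw [q_zero x hx]; ring) (hf.continuousOn.mono hB)
  have e1 : ∫ x, q x ^ 3 * ∑ j, (hess f x (eR j) (eR j) + hess f x (eI j) (eI j)) =
      ∫ x, (∑ j, ((24 * ip x (eR j) ^ 2 * q x - 6 * N (eR j) * q x ^ 2)
      + (24 * ip x (eI j) ^ 2 * q x - 6 * N (eI j) * q x ^ 2))) * f x := by
    simp only [Finset.mul_sum, Finset.sum_mul, mul_add, add_mul]
    rw [integral_finsetSum, integral_finsetSum]
    · refine Finset.sum_congr rfl fun j _ => ?_
      rw [integral_add (hi1 _) (hi1 _), integral_add (hi2 _) (hi2 _), main, main]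
    · intro j _; exact (hi2 _).add (hi2 _)
    · intro j _; exact (hi1 _).add (hi1 _)
  rw [e1, ← integral_const_mul, ← integral_neg]
  have i1 : Integrable (fun x => -(4 * kk n * (q x ^ 3 * f x))) :=
    ((int_mul (by have := q_cont (n := n); fun_prop) (fun x hx => hq0 3 x (by norm_num) hx)
      (hf.continuousOn.mono hB)).const_mul (4 * kk n)).neg
  have i2 : Integrable (fun x => (∑ j, ((24 * ip x (eR j) ^ 2 * q x - 6 * N (eR j) * q x ^ 2)
      + (24 * ip x (eI j) ^ 2 * q x - 6 * N (eI j) * q x ^ 2))) * f x) := by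
    simp only [Finset.sum_mul, add_mul]
    exact integrable_finsetSum _ fun j _ => (hi2 _).add (hi2 _)
  refine integral_mono i1 i2 fun x => ?_
  by_cases hx : x ∈ closedBall (0 : Fin n → ℂ) 1
  · have h1 := mul_le_mul_of_nonneg_right (bump_ineq x) (hf0 x (hB hx))
    refine le_trans (le_of_eq ?_) h1
    ring
  · have h2 := q_zero x hx
    simp [h2]


/-! ### Scaling -/

lemma fderiv_scale {Ω : Set (Fin n → ℂ)} (hΩ : IsOpen Ω) {g : (Fin n → ℂ) → ℝ}
    (hg : ContDiffOn ℝ 2 g Ω) (a : Fin n → ℂ) (ρ M : ℝ) {x : Fin n → ℂ} (hx : a + ρ • x ∈ Ω)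
    (w : Fin n → ℂ) :
    fderiv ℝ (fun x => M - g (a + ρ • x)) x w = -ρ * fderiv ℝ g (a + ρ • x) w := by
  have h1 : HasFDerivAt g (fderiv ℝ g (a + ρ • x)) (a + ρ • x) :=
    ((hg.differentiableOn (by norm_num)).differentiableAt (hΩ.mem_nhds hx)).hasFDerivAt
  have h2 : HasFDerivAt (fun x : Fin n → ℂ => a + ρ • x)
      (ρ • ContinuousLinearMap.id ℝ (Fin n → ℂ)) x :=
    ((hasFDerivAt_id x).const_smul ρ).const_add a
  have h3 := (h1.comp x h2).const_sub M
  have h4 : fderiv ℝ (fun x => M - g (a + ρ • x)) x = _ := h3.fderiv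
  rw [h4]
  simp

lemma hess_scale {Ω : Set (Fin n → ℂ)} (hΩ : IsOpen Ω) {g : (Fin n → ℂ) → ℝ}
    (hg : ContDiffOn ℝ 2 g Ω) (a : Fin n → ℂ) (ρ M : ℝ) {x : Fin n → ℂ} (hx : a + ρ • x ∈ Ω)
    (v w : Fin n → ℂ) :
    hess (fun x => M - g (a + ρ • x)) x v w = - (ρ ^ 2 * hess g (a + ρ • x) v w) := by
  unfold hess
  have hA : Continuous (fun x : Fin n → ℂ => a + ρ • x) := by fun_prop
  have he : (fun y => fderiv ℝ (fun x => M - g (a + ρ • x)) y w) =ᶠ[𝓝 x]
      fun y => -ρ * (fun z => fderiv ℝ g z w) (a + ρ • y) := by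
    filter_upwards [(hΩ.preimage hA).mem_nhds hx] with y hy
    exact fderiv_scale hΩ hg a ρ M hy w
  rw [he.fderiv_eq]
  have hf1 : ContDiffOn ℝ 1 (fun x => fderiv ℝ g x w) Ω :=
    (hg.fderiv_of_isOpen hΩ (m := 1) (by norm_num)).clm_apply (contDiffOn_const (c := w))
  have h1 : HasFDerivAt (fun z => fderiv ℝ g z w)
      (fderiv ℝ (fun z => fderiv ℝ g z w) (a + ρ • x)) (a + ρ • x) :=
    ((hf1.differentiableOn (by norm_num)).differentiableAt (hΩ.mem_nhds hx)).hasFDerivAt
  have h2 : HasFDerivAt (fun x : Fin n → ℂ => a + ρ • x)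
      (ρ • ContinuousLinearMap.id ℝ (Fin n → ℂ)) x :=
    ((hasFDerivAt_id x).const_smul ρ).const_add a
  have h3 := (h1.comp x h2).const_mul (-ρ)
  have h4 : fderiv ℝ (fun y => -ρ * (fun z => fderiv ℝ g z w) (a + ρ • y)) x = _ := h3.fderiv
  rw [h4]
  simp
  ring

/-- A solution of the flow `∂ₜu = log det (u_{jk̄})` on `Ω × (0,T)` with initial datum `u₀` and
boundary data `φ`. -/
structure IsSolution (Ω : Set (Fin n → ℂ)) (T : ℝ) (u₀ : (Fin n → ℂ) → EReal)
    (φ : (Fin n → ℂ) → ℝ → ℝ) (u : (Fin n → ℂ) → ℝ → ℝ) : Prop where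
  smooth : ContDiffOn ℝ ∞ (fun p : (Fin n → ℂ) × ℝ => u p.1 p.2) (closure Ω ×ˢ Ioo 0 T)
  spsh : ∀ t ∈ Ioo 0 T, ∀ z ∈ Ω, (cHess (fun x => u x t) z).PosDef
  flow : ∀ z ∈ Ω, ∀ t ∈ Ioo 0 T,
    HasDerivAt (fun s => u z s) (Real.log (cHess (fun x => u x t) z).det.re) t
  bdry : ∀ z ∈ frontier Ω, ∀ t ∈ Ioo 0 T, u z t = φ z t
  init : ∀ z ∈ closure Ω, Tendsto (fun t => (u z t : EReal)) (𝓝[>] 0) (𝓝 (u₀ z))

variable {Ω : Set (Fin n → ℂ)} {T : ℝ} {u₀ : (Fin n → ℂ) → EReal}
  {φ u : (Fin n → ℂ) → ℝ → ℝ}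

lemma IsSolution.slice (h : IsSolution Ω T u₀ φ u) (hΩ : IsOpen Ω) {t : ℝ} (ht : t ∈ Ioo 0 T) :
    ContDiffOn ℝ 2 (fun x => u x t) Ω := by
  have h1 : ContDiffOn ℝ 2 (fun p : (Fin n → ℂ) × ℝ => u p.1 p.2) (closure Ω ×ˢ Ioo 0 T) :=
    h.smooth.of_le (show ((2 : ℕ∞) : WithTop ℕ∞) ≤ ((⊤ : ℕ∞) : WithTop ℕ∞) from
      WithTop.coe_le_coe.2 le_top)
  exact h1.comp (f := fun x : Fin n → ℂ => (x, t)) (by fun_prop)
    (fun x hx => ⟨subset_closure hx, ht⟩)

lemma IsSolution.slice_cont (h : IsSolution Ω T u₀ φ u) {t : ℝ} (ht : t ∈ Ioo 0 T) :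
    ContinuousOn (fun x => u x t) (closure Ω) :=
  h.smooth.continuousOn.comp (f := fun x : Fin n → ℂ => (x, t)) (by fun_prop)
    (fun x hx => ⟨hx, ht⟩)

/-- The time derivative. -/
noncomputable def dt (u : (Fin n → ℂ) → ℝ → ℝ) (p : (Fin n → ℂ) × ℝ) : ℝ :=
  fderiv ℝ (fun p : (Fin n → ℂ) × ℝ => u p.1 p.2) p (0, 1)

lemma IsSolution.dt_cont (h : IsSolution Ω T u₀ φ u) (hΩ : IsOpen Ω) :
    ContinuousOn (dt u) (Ω ×ˢ Ioo 0 T) := by
  have h1 : ContDiffOn ℝ 1 (fun p : (Fin n → ℂ) × ℝ => u p.1 p.2) (Ω ×ˢ Ioo 0 T) :=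
    (h.smooth.of_le (by exact_mod_cast le_top)).mono (prod_mono subset_closure le_rfl)
  have h2 := (h1.fderiv_of_isOpen (hΩ.prod isOpen_Ioo) (m := 0) (by norm_num)).clm_apply
    (contDiffOn_const (c := ((0 : Fin n → ℂ), (1 : ℝ))))
  exact h2.continuousOn

lemma IsSolution.dt_has (h : IsSolution Ω T u₀ φ u) (hΩ : IsOpen Ω) {z : Fin n → ℂ} (hz : z ∈ Ω)
    {t : ℝ} (ht : t ∈ Ioo 0 T) : HasDerivAt (fun s => u z s) (dt u (z, t)) t := by
  have h1 : ContDiffOn ℝ 1 (fun p : (Fin n → ℂ) × ℝ => u p.1 p.2) (Ω ×ˢ Ioo 0 T) :=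
    (h.smooth.of_le (by exact_mod_cast le_top)).mono (prod_mono subset_closure le_rfl)
  have h2 : HasFDerivAt (fun p : (Fin n → ℂ) × ℝ => u p.1 p.2)
      (fderiv ℝ (fun p : (Fin n → ℂ) × ℝ => u p.1 p.2) (z, t)) (z, t) :=
    ((h1.differentiableOn (by norm_num)).differentiableAt
      ((hΩ.prod isOpen_Ioo).mem_nhds ⟨hz, ht⟩)).hasFDerivAt
  have h3 : HasDerivAt (fun s : ℝ => (z, s)) ((0 : Fin n → ℂ), (1 : ℝ)) t :=
    (hasDerivAt_const _ _).prodMk (hasDerivAt_id t)
  exact h2.comp_hasDerivAt t h3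

lemma IsSolution.dt_eq (h : IsSolution Ω T u₀ φ u) (hΩ : IsOpen Ω) {z : Fin n → ℂ} (hz : z ∈ Ω)
    {t : ℝ} (ht : t ∈ Ioo 0 T) : dt u (z, t) = Real.log (cHess (fun x => u x t) z).det.re :=
  (h.dt_has hΩ hz ht).unique (h.flow z hz t ht)

lemma q3_int : Integrable (fun x : Fin n → ℂ => q x ^ 3) := by
  have := int_mul (n := n) (η := fun x => q x ^ 3) (G := fun _ => 1)
    (by have := q_cont (n := n); fun_prop)
    (fun x hx => by rw [q_zero x hx]; norm_num) continuousOn_const
  simpa using this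

/-- The averaged quantity. -/
noncomputable def Y (u : (Fin n → ℂ) → ℝ → ℝ) (a : Fin n → ℂ) (ρ M t : ℝ) : ℝ :=
  ∫ x, q x ^ 3 * (M - u (a + ρ • x) t)

lemma IsSolution.Y_deriv (h : IsSolution Ω T u₀ φ u) (hΩ : IsOpen Ω) {a : Fin n → ℂ} {ρ M : ℝ}
    (hρ : ∀ x ∈ closedBall (0 : Fin n → ℂ) 1, a + ρ • x ∈ Ω) {t : ℝ} (ht : t ∈ Ioo 0 T) :
    Integrable (fun x => q x ^ 3 * -dt u (a + ρ • x, t)) ∧
    HasDerivAt (fun t => Y u a ρ M t) (∫ x, q x ^ 3 * -dt u (a + ρ • x, t)) t := by
  obtain ⟨ε, hε, hεs⟩ : ∃ ε > 0, Icc (t - ε) (t + ε) ⊆ Ioo 0 T := by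
    refine ⟨min (t / 2) ((T - t) / 2), lt_min (by linarith [ht.1]) (by linarith [ht.2]), ?_⟩
    intro s hs
    have h1 := min_le_left (t / 2) ((T - t) / 2)
    have h2 := min_le_right (t / 2) ((T - t) / 2)
    exact ⟨by linarith [hs.1, ht.1], by linarith [hs.2, ht.2]⟩
  have hA : Continuous (fun x : Fin n → ℂ => a + ρ • x) := by fun_prop
  have hq : Continuous (fun x : Fin n → ℂ => q x ^ 3) := by have := q_cont (n := n); fun_prop
  have hqz : ∀ x : Fin n → ℂ, x ∉ closedBall (0 : Fin n → ℂ) 1 → q x ^ 3 = 0 := by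
    intro x hx; rw [q_zero x hx]; norm_num
  have hcont : ContinuousOn (fun p : (Fin n → ℂ) × ℝ => dt u (a + ρ • p.1, p.2))
      (closedBall (0 : Fin n → ℂ) 1 ×ˢ Icc (t - ε) (t + ε)) := by
    refine (h.dt_cont hΩ).comp (f := fun p : (Fin n → ℂ) × ℝ => (a + ρ • p.1, p.2))
      (by fun_prop) ?_
    intro p hp
    exact ⟨hρ p.1 hp.1, hεs hp.2⟩
  obtain ⟨B, hB⟩ := ((isCompact_closedBall (0 : Fin n → ℂ) 1).prod
    (isCompact_Icc (a := t - ε) (b := t + ε))).exists_bound_of_continuousOn hcont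
  have hsl : ∀ s ∈ Icc (t - ε) (t + ε), ContinuousOn (fun x => M - u (a + ρ • x) s)
      (closedBall (0 : Fin n → ℂ) 1) := by
    intro s hs
    refine continuousOn_const.sub ?_
    exact (h.slice_cont (hεs hs)).comp hA.continuousOn (fun x hx => subset_closure (hρ x hx))
  have htt : t ∈ Icc (t - ε) (t + ε) := ⟨by linarith, by linarith⟩
  have hmem : Icc (t - ε) (t + ε) ∈ 𝓝 t := Icc_mem_nhds (by linarith) (by linarith)
  refine hasDerivAt_integral_of_dominated_loc_of_deriv_le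
    (F := fun s x => q x ^ 3 * (M - u (a + ρ • x) s))
    (F' := fun s x => q x ^ 3 * -dt u (a + ρ • x, s)) (bound := fun x => q x ^ 3 * B) hmem
    ?_ ?_ ?_ ?_ ?_ ?_
  · filter_upwards [hmem] with s hs
    exact (int_mul hq hqz (hsl s hs)).aestronglyMeasurable
  · exact int_mul hq hqz (hsl t htt)
  · refine (int_mul hq hqz ?_).aestronglyMeasurable
    refine ContinuousOn.neg ?_
    exact hcont.comp (f := fun x : Fin n → ℂ => (x, t)) (by fun_prop) (fun x hx => ⟨hx, htt⟩)
  · refine Eventually.of_forall fun x s hs => ?_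
    by_cases hx : x ∈ closedBall (0 : Fin n → ℂ) 1
    · have h1 := hB (x, s) ⟨hx, hs⟩
      simp only [norm_mul, norm_neg, norm_pow, Real.norm_eq_abs, abs_of_nonneg (q_nonneg x)]
      exact mul_le_mul_of_nonneg_left h1 (by have := q_nonneg x; positivity)
    · simp [hqz x hx]
  · exact q3_int.mul_const B
  · refine Eventually.of_forall fun x s hs => ?_
    by_cases hx : x ∈ closedBall (0 : Fin n → ℂ) 1
    · exact ((h.dt_has hΩ (hρ x hx) (hεs hs)).const_sub M).const_mul _
    · have : ∀ r, q x ^ 3 * r = 0 := fun r => by rw [hqz x hx, zero_mul]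
      simp only [this]
      exact hasDerivAt_const _ _

/-- The differential inequality. -/
lemma IsSolution.Y_ineq (h : IsSolution Ω T u₀ φ u) (hΩ : IsOpen Ω) {a : Fin n → ℂ} {ρ M : ℝ}
    (hρ0 : 0 < ρ) (hρ : ∀ x ∈ ball (0 : Fin n → ℂ) 2, a + ρ • x ∈ Ω) {t : ℝ} (ht : t ∈ Ioo 0 T)
    (hM : ∀ z ∈ Ω, u z t ≤ M) :
    - (kk n * Y u a ρ M t) + 2 * n * Real.log ρ * (∫ x : Fin n → ℂ, q x ^ 3) ≤
      ∫ x, q x ^ 3 * -dt u (a + ρ • x, t) := by
  have hsub : closedBall (0 : Fin n → ℂ) 1 ⊆ ball (0 : Fin n → ℂ) 2 :=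
    closedBall_subset_ball (by norm_num)
  have hA : Continuous (fun x : Fin n → ℂ => a + ρ • x) := by fun_prop
  have hu2 := h.slice hΩ ht
  have hf : ContDiffOn ℝ 2 (fun x => M - u (a + ρ • x) t) (ball (0 : Fin n → ℂ) 2) := by
    refine contDiffOn_const.sub ?_
    exact hu2.comp (f := fun x : Fin n → ℂ => a + ρ • x) (by fun_prop) hρ
  have h1 := ibp_bump isOpen_ball hsub hf (fun x hx => sub_nonneg.2 (hM _ (hρ x hx)))
  have hY : Y u a ρ M t = ∫ x, q x ^ 3 * (M - u (a + ρ • x) t) := rfl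
  rw [hY]
  have hint := (h.Y_deriv hΩ (M := M) (fun x hx => hρ x (hsub hx)) ht).1
  have hq : Continuous (fun x : Fin n → ℂ => q x ^ 3) := by have := q_cont (n := n); fun_prop
  have hqz : ∀ x : Fin n → ℂ, x ∉ closedBall (0 : Fin n → ℂ) 1 → q x ^ 3 = 0 := by
    intro x hx; rw [q_zero x hx]; norm_num
  have hhc : ∀ v : Fin n → ℂ, ContinuousOn (fun x => hess (fun x => M - u (a + ρ • x) t) x v v)
      (ball (0 : Fin n → ℂ) 2) := by
    intro v
    have hf1 : ContDiffOn ℝ 1 (fun x => fderiv ℝ (fun x => M - u (a + ρ • x) t) x v)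
        (ball (0 : Fin n → ℂ) 2) :=
      (hf.fderiv_of_isOpen isOpen_ball (m := 1) (by norm_num)).clm_apply
        (contDiffOn_const (c := v))
    have := (hf1.fderiv_of_isOpen isOpen_ball (m := 0) (by norm_num)).clm_apply
      (contDiffOn_const (c := v))
    exact this.continuousOn
  have hsum : Integrable (fun x => q x ^ 3 *
      ∑ j, (hess (fun x => M - u (a + ρ • x) t) x (eR j) (eR j)
        + hess (fun x => M - u (a + ρ • x) t) x (eI j) (eI j))) := by
    refine int_mul hq hqz ?_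
    refine continuousOn_finsetSum _ fun j _ => ?_
    exact ((hhc _).add (hhc _)).mono hsub
  have h2 : (1 / 4) * (∫ x, q x ^ 3 *
      ∑ j, (hess (fun x => M - u (a + ρ • x) t) x (eR j) (eR j)
        + hess (fun x => M - u (a + ρ • x) t) x (eI j) (eI j)))
      + 2 * n * Real.log ρ * (∫ x : Fin n → ℂ, q x ^ 3) ≤
      ∫ x, q x ^ 3 * -dt u (a + ρ • x, t) := by
    rw [← integral_const_mul, ← integral_const_mul, ← integral_add (hsum.const_mul _)
      (q3_int.const_mul _)]
    refine integral_mono ((hsum.const_mul _).add (q3_int.const_mul _)) hint fun x => ?_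
    show (1 / 4) * (q x ^ 3 * ∑ j, (hess (fun x => M - u (a + ρ • x) t) x (eR j) (eR j)
        + hess (fun x => M - u (a + ρ • x) t) x (eI j) (eI j)))
        + 2 * n * Real.log ρ * q x ^ 3 ≤ q x ^ 3 * -dt u (a + ρ • x, t)
    by_cases hx : x ∈ closedBall (0 : Fin n → ℂ) 1
    · have hz := hρ x (hsub hx)
      rw [h.dt_eq hΩ hz ht]
      have h3 := log_det_le (h.spsh t ht _ hz) hρ0
      rw [trace_cHess] at h3
      have h4 : ∑ j, (hess (fun x => M - u (a + ρ • x) t) x (eR j) (eR j)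
        + hess (fun x => M - u (a + ρ • x) t) x (eI j) (eI j)) =
        -(ρ ^ 2 * ∑ j, (hess (fun x => u x t) (a + ρ • x) (eR j) (eR j)
          + hess (fun x => u x t) (a + ρ • x) (eI j) (eI j))) := by
        rw [Finset.mul_sum, ← Finset.sum_neg_distrib]
        refine Finset.sum_congr rfl fun j _ => ?_
        rw [hess_scale hΩ hu2 a ρ M hz, hess_scale hΩ hu2 a ρ M hz]
        ring
      rw [h4]
      have h5 : 0 ≤ q x ^ 3 := by have := q_nonneg x; positivity
      nlinarith [mul_le_mul_of_nonneg_left h3 h5]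
    · rw [hqz x hx]; simp
  linarith [h1, h2]


/-! ### Maximum principle -/

lemma second_deriv_test {f : (Fin n → ℂ) → ℝ} {Ω : Set (Fin n → ℂ)} (hΩ : IsOpen Ω)
    (hf : ContDiffOn ℝ 2 f Ω) {z : Fin n → ℂ} (hz : z ∈ Ω) (hmax : IsLocalMax f z)
    (v : Fin n → ℂ) : hess f z v v ≤ 0 := by
  by_contra hc
  push Not at hc
  have hA : Continuous (fun s : ℝ => z + s • v) := by fun_prop
  have hz0 : z + (0:ℝ) • v = z := by simp
  have hev : ∀ᶠ s in 𝓝 (0:ℝ), z + s • v ∈ Ω :=
    (hΩ.preimage hA).mem_nhds (by show z + (0:ℝ) • v ∈ Ω; rw [hz0]; exact hz)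
  have hline : ∀ s : ℝ, HasDerivAt (fun s : ℝ => z + s • v) v s := by
    intro s
    simpa using ((hasDerivAt_id s).smul_const v).const_add z
  have hd1 : ∀ᶠ s in 𝓝 (0:ℝ), deriv (fun s : ℝ => f (z + s • v)) s = fderiv ℝ f (z + s • v) v := by
    filter_upwards [hev] with s hs
    have h1 : HasFDerivAt f (fderiv ℝ f (z + s • v)) (z + s • v) :=
      ((hf.differentiableOn (by norm_num)).differentiableAt (hΩ.mem_nhds hs)).hasFDerivAt
    exact (h1.comp_hasDerivAt s (hline s)).deriv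
  have hf1 : ContDiffOn ℝ 1 (fun x => fderiv ℝ f x v) Ω :=
    (hf.fderiv_of_isOpen hΩ (m := 1) (by norm_num)).clm_apply (contDiffOn_const (c := v))
  have hd2 : deriv (deriv (fun s : ℝ => f (z + s • v))) 0 = hess f z v v := by
    rw [Filter.EventuallyEq.deriv_eq hd1]
    have h1 : HasFDerivAt (fun x => fderiv ℝ f x v) (fderiv ℝ (fun x => fderiv ℝ f x v) (z + (0:ℝ) • v))
        (z + (0:ℝ) • v) :=
      ((hf1.differentiableOn (by norm_num)).differentiableAt
        (hΩ.mem_nhds (by rw [hz0]; exact hz))).hasFDerivAt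
    have h2 := (h1.comp_hasDerivAt (0:ℝ) (hline 0)).deriv
    have h3 : deriv (fun s : ℝ => fderiv ℝ f (z + s • v) v) 0 = _ := h2
    rw [h3, hz0]; rfl
  have hloc : IsLocalMax (fun s : ℝ => f (z + s • v)) 0 := by
    have h1 : IsLocalMax f (z + (0:ℝ) • v) := by rw [hz0]; exact hmax
    exact IsLocalMax.comp_continuous (g := fun s : ℝ => z + s • v) (b := (0:ℝ)) h1 hA.continuousAt
  have hcont : ContinuousAt (fun s : ℝ => f (z + s • v)) 0 := by
    have h1 : ContinuousAt f (z + (0:ℝ) • v) := by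
      rw [hz0]; exact hf.continuousOn.continuousAt (hΩ.mem_nhds hz)
    exact ContinuousAt.comp (f := fun s : ℝ => z + s • v) h1 hA.continuousAt
  have hmin := isLocalMin_of_deriv_deriv_pos (f := fun s : ℝ => f (z + s • v)) (x₀ := 0)
    (by rw [hd2]; exact hc) hloc.deriv_eq_zero hcont
  have hconst : (fun s : ℝ => f (z + s • v)) =ᶠ[𝓝 0] fun _ => f (z + (0:ℝ) • v) := by
    filter_upwards [hloc, hmin] with s h1 h2
    exact le_antisymm h1 h2
  have h5 : deriv (fun s : ℝ => f (z + s • v)) =ᶠ[𝓝 0] fun _ => 0 := by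
    have := hconst.deriv
    refine this.trans (Eventually.of_forall fun s => ?_)
    simp
  have h6 : deriv (deriv (fun s : ℝ => f (z + s • v))) 0 = 0 := by
    rw [h5.deriv_eq]; simp
  rw [hd2] at h6
  linarith

lemma diag_re (f : (Fin n → ℂ) → ℝ) (z : Fin n → ℂ) (j : Fin n) :
    (cHess f z j j).re = (hess f z (eR j) (eR j) + hess f z (eI j) (eI j)) / 4 := by
  have : ∀ z : ℂ, (z / 4).re = z.re / 4 := fun z => Complex.div_ofNat_re z 4
  simp only [cHess, Matrix.of_apply]
  rw [this]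
  simp

lemma IsSolution.le_max (h : IsSolution Ω T u₀ φ u) (hn : 1 ≤ n) (hΩ : IsOpen Ω)
    (hb : Bornology.IsBounded Ω) {t : ℝ} (ht : t ∈ Ioo 0 T) {M : ℝ}
    (hM : ∀ z ∈ frontier Ω, φ z t ≤ M) : ∀ z ∈ Ω, u z t ≤ M := by
  intro z hz
  have hcomp : IsCompact (closure Ω) := hb.isCompact_closure
  obtain ⟨w, hw, hmax⟩ := hcomp.exists_isMaxOn ⟨z, subset_closure hz⟩ (h.slice_cont ht)
  have hzw : u z t ≤ u w t := hmax (subset_closure hz)
  by_cases hwΩ : w ∈ Ω
  · exfalso
    have hloc : IsLocalMax (fun x => u x t) w := by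
      filter_upwards [hΩ.mem_nhds hwΩ] with y hy
      exact hmax (subset_closure hy)
    let j : Fin n := ⟨0, hn⟩
    have h1 := second_deriv_test hΩ (h.slice hΩ ht) hwΩ hloc (eR j)
    have h2 := second_deriv_test hΩ (h.slice hΩ ht) hwΩ hloc (eI j)
    have h3 := (h.spsh t ht w hwΩ).diag_pos (i := j)
    have h4 := diag_re (fun x => u x t) w j
    have h5 : 0 < (cHess (fun x => u x t) w j j).re := (Complex.pos_iff.1 h3).1
    rw [h4] at h5
    linarith
  · have hwf : w ∈ frontier Ω := by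
      rw [hΩ.frontier_eq]; exact ⟨hw, hwΩ⟩
    have := hM w hwf
    rw [← h.bdry w hwf t ht] at this
    linarith

/-! ### The initial value of the averaged quantity -/

lemma IsSolution.Y_init (h : IsSolution Ω T u₀ φ u) (hn : 1 ≤ n) (hT : 0 < T) {a : Fin n → ℂ}
    {ρ M : ℝ}
    (hρ : ∀ x ∈ closedBall (0 : Fin n → ℂ) 1, a + ρ • x ∈ Ω)
    (hM : ∀ t ∈ Ioo 0 T, ∀ z ∈ Ω, u z t ≤ M) {K : ℝ}
    (hK : ∀ x ∈ closedBall (0 : Fin n → ℂ) 1, x ≠ 0 → u₀ (a + ρ • x) ≤ ((M - K : ℝ) : EReal))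
    {y : ℝ} (hy : y < K * ∫ x : Fin n → ℂ, q x ^ 3) :
    ∀ᶠ t in 𝓝[>] 0, y < Y u a ρ M t := by
  have hq : Continuous (fun x : Fin n → ℂ => q x ^ 3) := by have := q_cont (n := n); fun_prop
  have hqz : ∀ x : Fin n → ℂ, x ∉ closedBall (0 : Fin n → ℂ) 1 → q x ^ 3 = 0 := by
    intro x hx; rw [q_zero x hx]; norm_num
  have hA : Continuous (fun x : Fin n → ℂ => a + ρ • x) := by fun_prop
  have hna : NullSingletonClass (volume : Measure (Fin n → ℂ)) := by
    rw [volume_pi]; exact Measure.pi_nullSingletonClass (⟨0, hn⟩ : Fin n)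
  have hIoo : Ioo 0 T ∈ 𝓝[>] (0:ℝ) := Ioo_mem_nhdsGT hT
  have hsl : ∀ t ∈ Ioo 0 T, ContinuousOn (fun x => M - u (a + ρ • x) t)
      (closedBall (0 : Fin n → ℂ) 1) := by
    intro s hs
    refine continuousOn_const.sub ?_
    exact (h.slice_cont hs).comp hA.continuousOn (fun x hx => subset_closure (hρ x hx))
  have hsl2 : ∀ t ∈ Ioo 0 T, Integrable (fun x => q x ^ 3 * min (M - u (a + ρ • x) t) K) := by
    intro t ht
    exact int_mul hq hqz ((continuous_id.min continuous_const).comp_continuousOn (hsl t ht))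
  have lim : Tendsto (fun t => ∫ x, q x ^ 3 * min (M - u (a + ρ • x) t) K) (𝓝[>] 0)
      (𝓝 (∫ x : Fin n → ℂ, q x ^ 3 * K)) := by
    refine tendsto_integral_filter_of_dominated_convergence (fun x => q x ^ 3 * |K|) ?_ ?_
      (q3_int.mul_const _) ?_
    · filter_upwards [hIoo] with t ht
      exact (hsl2 t ht).aestronglyMeasurable
    · filter_upwards [hIoo] with t ht
      refine Eventually.of_forall fun x => ?_
      by_cases hx : x ∈ closedBall (0 : Fin n → ℂ) 1
      · simp only [norm_mul, norm_pow, Real.norm_eq_abs, abs_of_nonneg (q_nonneg x)]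
        refine mul_le_mul_of_nonneg_left ?_ (by have := q_nonneg x; positivity)
        have h1 : 0 ≤ M - u (a + ρ • x) t := sub_nonneg.2 (hM t ht _ (hρ x hx))
        rw [abs_le]
        constructor
        · refine le_min (by have := abs_nonneg K; linarith) (neg_abs_le K)
        · exact (min_le_right _ _).trans (le_abs_self K)
      · rw [hqz x hx]; simp
    · have hne : ∀ᵐ x : Fin n → ℂ, x ≠ 0 := by
        rw [ae_iff]
        simp only [ne_eq, not_not, ofPred_eq_eq_singleton]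
        exact measure_singleton _
      filter_upwards [hne] with x hx0
      by_cases hx : x ∈ closedBall (0 : Fin n → ℂ) 1
      · refine Tendsto.const_mul _ ?_
        rw [tendsto_order]
        constructor
        · intro b hb
          have h1 : u₀ (a + ρ • x) < ((M - b : ℝ) : EReal) :=
            lt_of_le_of_lt (hK x hx hx0) (EReal.coe_lt_coe_iff.2 (by linarith))
          have h2 := (h.init _ (subset_closure (hρ x hx))).eventually (gt_mem_nhds h1)
          filter_upwards [h2] with t ht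
          have h3 := EReal.coe_lt_coe_iff.1 ht
          exact lt_min (by linarith) hb
        · intro b hb
          exact Eventually.of_forall fun t => lt_of_le_of_lt (min_le_right _ _) hb
      · have : ∀ r, q x ^ 3 * r = 0 := fun r => by rw [hqz x hx, zero_mul]
        simp only [this]
        exact tendsto_const_nhds
  rw [integral_mul_const, mul_comm] at lim
  filter_upwards [hIoo, lim.eventually (lt_mem_nhds hy)] with t ht h1
  refine lt_of_lt_of_le h1 ?_
  refine integral_mono (hsl2 t ht) (int_mul hq hqz (hsl t ht)) fun x => ?_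
  exact mul_le_mul_of_nonneg_left (min_le_left _ _) (by have := q_nonneg x; positivity)

lemma q3_pos : 0 < ∫ x : Fin n → ℂ, q x ^ 3 := by
  have hq : Continuous (fun x : Fin n → ℂ => q x ^ 3) := by have := q_cont (n := n); fun_prop
  refine hq.integral_pos_of_hasCompactSupport_nonneg_nonzero ?_ ?_ (x := 0) ?_
  · refine HasCompactSupport.intro (isCompact_closedBall 0 1) fun x hx => ?_
    rw [q_zero x hx]; norm_num
  · intro x; have := q_nonneg x; show 0 ≤ q x ^ 3; positivity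
  · simp [q, N]

lemma kk_pos : 0 < kk n := by unfold kk; positivity

/-- Consequence of the differential inequality at a fixed time. -/
lemma IsSolution.Y_lower (h : IsSolution Ω T u₀ φ u) (hn : 1 ≤ n) (hΩ : IsOpen Ω)
    {a : Fin n → ℂ} {ρ M : ℝ} (hρ0 : 0 < ρ) (hρ1 : ρ < 1)
    (hρ : ∀ x ∈ ball (0 : Fin n → ℂ) 2, a + ρ • x ∈ Ω)
    (hM : ∀ t ∈ Ioo 0 T, ∀ z ∈ Ω, u z t ≤ M) {K : ℝ}
    (hK : ∀ x ∈ closedBall (0 : Fin n → ℂ) 1, x ≠ 0 → u₀ (a + ρ • x) ≤ ((M - K : ℝ) : EReal))
    (hK0 : 0 < K) {t : ℝ} (ht : t ∈ Ioo 0 T) :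
    (Real.exp (-(kk n * t)) * K - 2 * n * (-Real.log ρ) * t) * (∫ x : Fin n → ℂ, q x ^ 3) ≤
      Y u a ρ M t := by
  have hsub : closedBall (0 : Fin n → ℂ) 1 ⊆ ball (0 : Fin n → ℂ) 2 :=
    closedBall_subset_ball (by norm_num)
  set I := ∫ x : Fin n → ℂ, q x ^ 3 with hI
  have hIpos : 0 < I := q3_pos
  set L := -Real.log ρ with hL
  have hL0 : 0 < L := by
    have := Real.log_neg hρ0 hρ1
    linarith
  have hk := kk_pos (n := n)
  set k := kk n with hkdef
  set β := 2 * n * L * I / k with hβ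
  have hn' : (1:ℝ) ≤ n := by exact_mod_cast hn
  have hβ0 : 0 < β := by positivity
  have hT : 0 < T := ht.1.trans ht.2
  have hder : ∀ s ∈ Ioo 0 T, HasDerivAt (fun s => Real.exp (k * s) * (Y u a ρ M s + β))
      (Real.exp (k * s) * k * (Y u a ρ M s + β) +
        Real.exp (k * s) * (∫ x, q x ^ 3 * -dt u (a + ρ • x, s))) s := by
    intro s hs
    have h1 := (h.Y_deriv hΩ (M := M) (fun x hx => hρ x (hsub hx)) hs).2
    have h2 : HasDerivAt (fun s => Real.exp (k * s)) (Real.exp (k * s) * k) s := by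
      have := ((hasDerivAt_id s).const_mul k).exp
      simpa using this
    exact h2.mul (h1.add_const β)
  have hmono : MonotoneOn (fun s => Real.exp (k * s) * (Y u a ρ M s + β)) (Ioo 0 T) := by
    refine monotoneOn_of_deriv_nonneg (convex_Ioo 0 T) ?_ ?_ ?_
    · intro s hs; exact (hder s hs).continuousAt.continuousWithinAt
    · intro s hs
      rw [interior_Ioo] at hs
      exact (hder s hs).differentiableAt.differentiableWithinAt
    · intro s hs
      rw [interior_Ioo] at hs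
      rw [(hder s hs).deriv]
      have h1 := h.Y_ineq hΩ hρ0 hρ hs (fun z hz => hM s hs z hz)
      have h2 : k * β = 2 * n * L * I := by rw [hβ]; field_simp
      have h3 : 0 ≤ k * (Y u a ρ M s + β) + ∫ x, q x ^ 3 * -dt u (a + ρ • x, s) := by
        rw [mul_add, h2]
        have : 2 * n * Real.log ρ * I = - (2 * n * L * I) := by rw [hL]; ring
        linarith
      have h4 := mul_nonneg (Real.exp_pos (k * s)).le h3
      linarith
  have hmain : K * I + β ≤ Real.exp (k * t) * (Y u a ρ M t + β) := by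
    refine le_of_forall_lt fun b hb => ?_
    -- choose s small with Y s + β > b, s < t
    have h1 : max (b - β) (-β / 2) < K * I := by
      refine max_lt (by linarith) ?_
      have : 0 < K * I := mul_pos hK0 hIpos
      linarith
    have h2 := h.Y_init hn hT (fun x hx => hρ x (hsub hx)) hM hK h1
    have h3 : Ioo 0 t ∈ 𝓝[>] (0:ℝ) := Ioo_mem_nhdsGT ht.1
    obtain ⟨s, hs1, hs2⟩ := (h2.and h3).exists
    have h4 := hmono ⟨hs2.1, hs2.2.trans ht.2⟩ ht hs2.2.le
    simp only at h4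
    refine lt_of_lt_of_le ?_ h4
    have h5 : b - β < Y u a ρ M s := (le_max_left _ _).trans_lt hs1
    have h6 : -β / 2 < Y u a ρ M s := (le_max_right _ _).trans_lt hs1
    have h7 : 1 ≤ Real.exp (k * s) := Real.one_le_exp (by have := hs2.1; positivity)
    have h8 : 0 ≤ Y u a ρ M s + β := by linarith
    nlinarith
  have hexp : Real.exp (-(k * t)) * Real.exp (k * t) = 1 := by
    rw [← Real.exp_add]; simp
  have h1 : Real.exp (-(k * t)) * (K * I + β) ≤ Y u a ρ M t + β := by
    have := mul_le_mul_of_nonneg_left hmain (Real.exp_pos (-(k * t))).le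
    rwa [← mul_assoc, hexp, one_mul] at this
  have h2 : 1 - k * t ≤ Real.exp (-(k * t)) := by
    have := Real.add_one_le_exp (-(k * t)); linarith
  have h3 : k * β = 2 * n * L * I := by rw [hβ]; field_simp
  have h4 : β * (1 - Real.exp (-(k * t))) ≤ β * (k * t) :=
    mul_le_mul_of_nonneg_left (by linarith) hβ0.le
  have h5 : β * (k * t) = 2 * n * L * t * I := by
    calc β * (k * t) = (k * β) * t := by ring
      _ = _ := by rw [h3]; ring
  have h6 : (Real.exp (-(k * t)) * K - 2 * n * L * t) * I =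
    Real.exp (-(k * t)) * (K * I) - 2 * n * L * t * I := by ring
  rw [h6]
  linarith


/-- **Obstruction.** No solution exists when the initial datum has a logarithmic pole
(a positive Lelong number) at an interior point. -/
theorem nonexist (hn : 1 ≤ n) (hΩ : IsOpen Ω) (hb : Bornology.IsBounded Ω) (hT : 0 < T)
    (hφ : ContinuousOn (fun p : (Fin n → ℂ) × ℝ => φ p.1 p.2) (closure Ω ×ˢ Ico 0 T))
    (hφu : ∀ z ∈ frontier Ω, ∀ t ∈ Ico 0 T, u₀ z = (φ z t : EReal))
    {a : Fin n → ℂ} (ha : a ∈ Ω) {c C : ℝ} (hc : 0 < c)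
    (hL : ∀ᶠ z in 𝓝[≠] a, u₀ z ≤ ((c * Real.log ‖z - a‖ + C : ℝ) : EReal)) :
    ¬ ∃ u, IsSolution Ω T u₀ φ u := by
  rintro ⟨u, h⟩
  -- upper bound
  have hcomp : IsCompact (closure Ω) := hb.isCompact_closure
  have h0 : ContinuousOn (fun z => φ z 0) (closure Ω) :=
    hφ.comp (f := fun z : Fin n → ℂ => (z, (0:ℝ))) (by fun_prop) (fun z hz => ⟨hz, le_rfl, hT⟩)
  obtain ⟨M, hM0⟩ := hcomp.exists_bound_of_continuousOn h0
  have hMφ : ∀ t ∈ Ioo 0 T, ∀ z ∈ frontier Ω, φ z t ≤ M := by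
    intro t ht z hz
    have h1 := hφu z hz t ⟨ht.1.le, ht.2⟩
    have h2 := hφu z hz 0 ⟨le_rfl, hT⟩
    rw [h1] at h2
    have h3 : φ z t = φ z 0 := EReal.coe_eq_coe_iff.1 h2
    rw [h3]
    exact (le_abs_self _).trans (hM0 z (frontier_subset_closure hz))
  have hM : ∀ t ∈ Ioo 0 T, ∀ z ∈ Ω, u z t ≤ M := fun t ht =>
    h.le_max hn hΩ hb ht (hMφ t ht)
  -- a good radius
  rw [eventually_nhdsWithin_iff] at hL
  obtain ⟨r, hr, hrs⟩ := Metric.eventually_nhds_iff_ball.1 (hL.and (hΩ.eventually_mem ha))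
  -- a good time
  have hk := kk_pos (n := n)
  set k := kk n with hkd
  have hn' : (1:ℝ) ≤ n := by exact_mod_cast hn
  obtain ⟨t, ht0, htT, htc⟩ : ∃ t : ℝ, 0 < t ∧ t < T ∧ t * (k * c + 2 * n) ≤ c / 2 := by
    have hpos : 0 < k * c + 2 * n := by positivity
    refine ⟨min (T / 2) (c / 2 / (k * c + 2 * n)), lt_min (by linarith) (by positivity), ?_, ?_⟩
    · exact (min_le_left _ _).trans_lt (by linarith)
    · calc _ ≤ c / 2 / (k * c + 2 * n) * (k * c + 2 * n) :=
          mul_le_mul_of_nonneg_right (min_le_right _ _) hpos.le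
        _ = c / 2 := by field_simp
  have ht : t ∈ Ioo 0 T := ⟨ht0, htT⟩
  have hexp1 : 1 - k * t ≤ Real.exp (-(k * t)) := by
    have := Real.add_one_le_exp (-(k * t)); linarith
  have hexp2 : Real.exp (-(k * t)) ≤ 1 := by
    rw [Real.exp_le_one_iff]; have := mul_pos hk ht0; linarith
  set δ := Real.exp (-(k * t)) * c - 2 * n * t with hδ
  have hδ0 : 0 < δ := by
    have := mul_le_mul_of_nonneg_right hexp1 hc.le
    nlinarith
  -- upper bound for M - u near a at time t
  have hcb : closedBall a (r / 2) ⊆ Ω := fun z hz =>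
    (hrs z (closedBall_subset_ball (by linarith) hz)).2
  obtain ⟨B, hB⟩ := (isCompact_closedBall a (r / 2)).exists_bound_of_continuousOn
    ((continuousOn_const (c := M)).sub ((h.slice_cont ht).mono (hcb.trans subset_closure)))
  -- choose R large
  have e1 : ∀ᶠ R : ℝ in atTop, 1 < R := eventually_gt_atTop 1
  have e2 : ∀ᶠ R : ℝ in atTop, B + |M - C| < δ * R :=
    (tendsto_id.const_mul_atTop hδ0).eventually (eventually_gt_atTop _)
  have e3 : ∀ᶠ R : ℝ in atTop, |M - C| < c * R :=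
    (tendsto_id.const_mul_atTop hc).eventually (eventually_gt_atTop _)
  have e4 : ∀ᶠ R : ℝ in atTop, Real.exp (-R) < r / 4 :=
    Real.tendsto_exp_neg_atTop_nhds_zero.eventually (gt_mem_nhds (by linarith))
  obtain ⟨R, ⟨hR1, hR2⟩, hR3, hR4⟩ := ((e1.and e2).and (e3.and e4)).exists
  set ρ := Real.exp (-R) with hρd
  have hρ0 : 0 < ρ := Real.exp_pos _
  have hρ1 : ρ < 1 := by rw [hρd, Real.exp_lt_one_iff]; linarith
  have hlog : Real.log ρ = -R := Real.log_exp _
  have hin : ∀ x ∈ ball (0 : Fin n → ℂ) 2, a + ρ • x ∈ closedBall a (r / 2) := by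
    intro x hx
    rw [mem_closedBall, dist_eq_norm, add_sub_cancel_left, norm_smul, Real.norm_eq_abs,
      abs_of_pos hρ0]
    rw [mem_ball_zero_iff] at hx
    nlinarith [norm_nonneg x]
  have hρΩ : ∀ x ∈ ball (0 : Fin n → ℂ) 2, a + ρ • x ∈ Ω := fun x hx => hcb (hin x hx)
  set K := M - C - c * Real.log ρ with hKd
  have hK0 : 0 < K := by
    rw [hKd, hlog]
    have := neg_abs_le (M - C)
    linarith
  have hK : ∀ x ∈ closedBall (0 : Fin n → ℂ) 1, x ≠ 0 →
      u₀ (a + ρ • x) ≤ ((M - K : ℝ) : EReal) := by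
    intro x hx hx0
    have hxb : x ∈ ball (0 : Fin n → ℂ) 2 := closedBall_subset_ball (by norm_num) hx
    have h1 := (hrs (a + ρ • x) (closedBall_subset_ball (by linarith) (hin x hxb))).1 (by
      simp only [mem_compl_iff, mem_singleton_iff, add_eq_left, smul_eq_zero]
      push Not
      exact ⟨hρ0.ne', hx0⟩)
    refine h1.trans (EReal.coe_le_coe_iff.2 ?_)
    rw [hKd, add_sub_cancel_left, norm_smul, Real.norm_eq_abs, abs_of_pos hρ0]
    rw [mem_closedBall_zero_iff] at hx
    have hxn : 0 < ‖x‖ := norm_pos_iff.2 hx0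
    have h2 : Real.log (ρ * ‖x‖) ≤ Real.log ρ := by
      refine Real.log_le_log (by positivity) ?_
      nlinarith
    nlinarith
  have hlow := h.Y_lower hn hΩ hρ0 hρ1 hρΩ hM hK hK0 ht
  have hq : Continuous (fun x : Fin n → ℂ => q x ^ 3) := by have := q_cont (n := n); fun_prop
  have hqz : ∀ x : Fin n → ℂ, x ∉ closedBall (0 : Fin n → ℂ) 1 → q x ^ 3 = 0 := by
    intro x hx; rw [q_zero x hx]; norm_num
  have hsub : closedBall (0 : Fin n → ℂ) 1 ⊆ ball (0 : Fin n → ℂ) 2 :=
    closedBall_subset_ball (by norm_num)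
  have hA : Continuous (fun x : Fin n → ℂ => a + ρ • x) := by fun_prop
  have hup : Y u a ρ M t ≤ B * ∫ x : Fin n → ℂ, q x ^ 3 := by
    rw [← integral_const_mul]
    refine integral_mono (int_mul hq hqz ?_) (q3_int.const_mul B) fun x => ?_
    · refine continuousOn_const.sub ?_
      exact (h.slice_cont ht).comp hA.continuousOn
        (fun x hx => subset_closure (hρΩ x (hsub hx)))
    · show q x ^ 3 * (M - u (a + ρ • x) t) ≤ B * q x ^ 3
      by_cases hx : x ∈ closedBall (0 : Fin n → ℂ) 1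
      · have h1 := (le_abs_self _).trans (hB _ (hin x (hsub hx)))
        rw [mul_comm B]
        exact mul_le_mul_of_nonneg_left h1 (by have := q_nonneg x; positivity)
      · rw [hqz x hx]; simp
  have hI := q3_pos (n := n)
  have hfin := le_of_mul_le_mul_right (hlow.trans hup) hI
  rw [hKd, hlog] at hfin
  have h1 : Real.exp (-(k * t)) * (M - C - c * -R) - 2 * n * - -R * t =
    Real.exp (-(k * t)) * (M - C) + δ * R := by rw [hδ]; ring
  rw [h1] at hfin
  have h2 : -|M - C| ≤ Real.exp (-(k * t)) * (M - C) := by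
    have h3 := neg_abs_le (M - C)
    have h4 := (Real.exp_pos (-(k * t))).le
    have h5 := abs_nonneg (M - C)
    nlinarith
  linarith


/-! ### Plurisubharmonic functions, strictly pseudoconvex domains, the explicit example -/

/-- `v` is plurisubharmonic on `W`: upper semicontinuous, with values in `[-∞, ∞)`, and
`v a ≤ (1/2π) ∫ v (a + e^{iθ} b) dθ` for every closed disc `{a + ζ b : |ζ| ≤ 1}` in `W` (the
integral of the upper semicontinuous function is the infimum of the integrals of its continuous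
majorants). -/
def IsPSH (W : Set (Fin n → ℂ)) (v : (Fin n → ℂ) → EReal) : Prop :=
  UpperSemicontinuousOn v W ∧ (∀ z ∈ W, v z ≠ ⊤) ∧
  ∀ a b : Fin n → ℂ, (∀ ζ : ℂ, ‖ζ‖ ≤ 1 → a + ζ • b ∈ W) →
    ∀ g : ℝ → ℝ, Continuous g →
      (∀ θ : ℝ, v (a + Complex.exp (θ * Complex.I) • b) ≤ (g θ : EReal)) →
      v a ≤ (((2 * Real.pi)⁻¹ * ∫ θ in (0:ℝ)..(2 * Real.pi), g θ : ℝ) : EReal)

/-- Bounded strictly pseudoconvex domain with smooth boundary: there is a smooth strictly
plurisubharmonic defining function near the boundary. -/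
structure IsStrictlyPseudoconvex (Ω : Set (Fin n → ℂ)) : Prop where
  isOpen : IsOpen Ω
  connected : IsConnected Ω
  bounded : Bornology.IsBounded Ω
  defining : ∃ (W : Set (Fin n → ℂ)) (r : (Fin n → ℂ) → ℝ), IsOpen W ∧ frontier Ω ⊆ W ∧
    ContDiffOn ℝ ∞ r W ∧ Ω ∩ W = {z ∈ W | r z < 0} ∧
    (∀ z ∈ frontier Ω, fderiv ℝ r z ≠ 0) ∧ ∀ z ∈ W, (cHess r z).PosDef

/-- `log |z|²`, with value `-∞` at the origin. -/
noncomputable def logSq (z : Fin n → ℂ) : EReal :=
  if z = 0 then ⊥ else ((Real.log (∑ j, ‖z j‖ ^ 2) : ℝ) : EReal)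

lemma N_eq (z : Fin n → ℂ) : N z = ∑ j, ‖z j‖ ^ 2 := by
  unfold N
  refine Finset.sum_congr rfl fun j _ => ?_
  rw [← Complex.normSq_eq_norm_sq, Complex.normSq_apply]; ring

lemma N_nonneg (z : Fin n → ℂ) : 0 ≤ N z := by
  unfold N; exact Finset.sum_nonneg fun j _ => by positivity

lemma N_pos {z : Fin n → ℂ} (hz : z ≠ 0) : 0 < N z := by
  obtain ⟨j, hj⟩ := Function.ne_iff.1 hz
  rw [N_eq]
  refine Finset.sum_pos' (fun i _ => by positivity) ⟨j, Finset.mem_univ j, ?_⟩
  have : 0 < ‖z j‖ := norm_pos_iff.2 hj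
  positivity

lemma N_zero : N (0 : Fin n → ℂ) = 0 := by simp [N]

lemma logSq_eq (z : Fin n → ℂ) : logSq z = ENNReal.log (ENNReal.ofReal (N z)) := by
  unfold logSq
  split_ifs with h
  · subst h; rw [N_zero]; simp
  · have h1 := N_pos h
    rw [ENNReal.log_ofReal_of_pos h1, N_eq]

lemma logSq_cont : Continuous (logSq : (Fin n → ℂ) → EReal) := by
  have : (logSq : (Fin n → ℂ) → EReal) = fun z => ENNReal.log (ENNReal.ofReal (N z)) :=
    funext logSq_eq
  rw [this]
  exact ENNReal.continuous_log.comp (ENNReal.continuous_ofReal.comp N_cont)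

/-- Hermitian product. -/
noncomputable def hp (b a : Fin n → ℂ) : ℂ := ∑ j, b j * (starRingEnd ℂ) (a j)

lemma cs (a b : Fin n → ℂ) (ζ : ℂ) : ‖(N a : ℂ) + ζ * hp b a‖ ^ 2 ≤ N a * N (a + ζ • b) := by
  have h1 : (N a : ℂ) + ζ * hp b a = ∑ j, (a + ζ • b) j * (starRingEnd ℂ) (a j) := by
    rw [N_eq, hp, Finset.mul_sum]
    push_cast
    rw [← Finset.sum_add_distrib]
    refine Finset.sum_congr rfl fun j _ => ?_
    simp only [Pi.add_apply, Pi.smul_apply, smul_eq_mul, add_mul]
    rw [Complex.mul_conj, Complex.normSq_eq_norm_sq]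
    push_cast
    ring
  rw [h1]
  have h2 : ‖∑ j, (a + ζ • b) j * (starRingEnd ℂ) (a j)‖ ≤ ∑ j, ‖(a + ζ • b) j‖ * ‖a j‖ := by
    refine (norm_sum_le _ _).trans (le_of_eq ?_)
    refine Finset.sum_congr rfl fun j _ => ?_
    rw [norm_mul, RCLike.norm_conj]
  calc ‖∑ j, (a + ζ • b) j * (starRingEnd ℂ) (a j)‖ ^ 2 ≤
      (∑ j, ‖(a + ζ • b) j‖ * ‖a j‖) ^ 2 := by gcongr
    _ ≤ (∑ j, ‖(a + ζ • b) j‖ ^ 2) * (∑ j, ‖a j‖ ^ 2) := Finset.sum_mul_sq_le_sq_mul_sq _ _ _
    _ = N a * N (a + ζ • b) := by rw [N_eq, N_eq]; ring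

lemma logSq_psh : IsPSH (univ : Set (Fin n → ℂ)) logSq := by
  refine ⟨logSq_cont.upperSemicontinuous.upperSemicontinuousOn _, ?_, ?_⟩
  · intro z _
    unfold logSq
    split_ifs
    · exact bot_ne_top
    · exact EReal.coe_ne_top _
  · intro a b _ g hg hle
    by_cases ha : a = 0
    · rw [ha]; simp [logSq]
    have hA := N_pos ha
    have hval : logSq a = ((Real.log (N a) : ℝ) : EReal) := by
      rw [logSq, if_neg ha, N_eq]
    rw [hval, EReal.coe_le_coe_iff]
    have hpi : (0:ℝ) < 2 * Real.pi := by positivity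
    -- pointwise bound
    have pt : ∀ θ : ℝ, (N a : ℂ) + Complex.exp (θ * Complex.I) * hp b a ≠ 0 →
        2 * Real.log ‖(N a : ℂ) + Complex.exp (θ * Complex.I) * hp b a‖ - Real.log (N a) ≤ g θ := by
      intro θ hθ
      have h1 := cs a b (Complex.exp (θ * Complex.I))
      have h2 : 0 < ‖(N a : ℂ) + Complex.exp (θ * Complex.I) * hp b a‖ := norm_pos_iff.2 hθ
      have h3 : 0 < N (a + Complex.exp (θ * Complex.I) • b) := by
        by_contra hc
        have h4 : N (a + Complex.exp (θ * Complex.I) • b) = 0 :=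
          le_antisymm (not_lt.1 hc) (N_nonneg _)
        rw [h4, mul_zero] at h1
        have : 0 < ‖(N a : ℂ) + Complex.exp (θ * Complex.I) * hp b a‖ ^ 2 := by positivity
        linarith
      have h4 := hle θ
      have hne : a + Complex.exp (θ * Complex.I) • b ≠ 0 := by
        intro hc; rw [hc, N_zero] at h3; exact lt_irrefl _ h3
      rw [logSq, if_neg hne, ← N_eq, EReal.coe_le_coe_iff] at h4
      have h5 := Real.log_le_log (by positivity) h1
      rw [Real.log_pow, Real.log_mul hA.ne' h3.ne'] at h5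
      push_cast at h5
      linarith
    by_cases hκ : hp b a = 0
    · have h1 : ∀ θ : ℝ, Real.log (N a) ≤ g θ := by
        intro θ
        have := pt θ (by rw [hκ, mul_zero, add_zero]; exact_mod_cast hA.ne')
        rw [hκ, mul_zero, add_zero, Complex.norm_real, Real.norm_eq_abs, abs_of_pos hA] at this
        linarith
      have h2 : ∫ θ in (0:ℝ)..(2 * Real.pi), Real.log (N a) ≤
          ∫ θ in (0:ℝ)..(2 * Real.pi), g θ :=
        intervalIntegral.integral_mono_on hpi.le (by simp)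
          (hg.intervalIntegrable _ _) (fun θ _ => h1 θ)
      rw [intervalIntegral.integral_const, smul_eq_mul, sub_zero] at h2
      rw [← div_eq_inv_mul, le_div_iff₀ hpi]
      linarith
    · set κ := hp b a with hκd
      have hκn : 0 < ‖κ‖ := norm_pos_iff.2 hκ
      set w : ℂ := -(N a / κ) with hw
      have hci : IntervalIntegrable (fun θ : ℝ => Real.log ‖circleMap 0 1 θ - w‖) volume 0
        (2 * Real.pi) := circleIntegrable_log_norm_sub_const 1
      have hfac : ∀ θ : ℝ, (N a : ℂ) + Complex.exp (θ * Complex.I) * κ =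
          κ * (circleMap 0 1 θ - w) := by
        intro θ
        simp only [circleMap, zero_add, Complex.ofReal_one, one_mul, hw]
        field_simp
        ring
      have hae : ∀ᵐ θ : ℝ, circleMap 0 1 θ - w ≠ 0 := by
        have hcount : {θ : ℝ | ¬ (circleMap 0 1 θ - w ≠ 0)}.Countable := by
          have := (Set.countable_singleton w).preimage_circleMap (c := 0) (R := 1) one_ne_zero
          refine this.mono ?_
          intro θ hθ
          have h1 : circleMap 0 1 θ - w = 0 := not_not.1 hθ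
          exact sub_eq_zero.1 h1
        exact hcount.measure_zero _
      have hmono : ∫ θ in (0:ℝ)..(2 * Real.pi),
          (2 * (Real.log ‖κ‖ + Real.log ‖circleMap 0 1 θ - w‖) - Real.log (N a)) ≤
          ∫ θ in (0:ℝ)..(2 * Real.pi), g θ := by
        refine intervalIntegral.integral_mono_ae hpi.le ?_ (hg.intervalIntegrable _ _) ?_
        · exact ((intervalIntegrable_const.add hci).const_mul 2).sub intervalIntegrable_const
        · filter_upwards [hae] with θ hθ
          have h1 := pt θ (by rw [hfac θ]; exact mul_ne_zero hκ hθ)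
          rw [hfac θ, norm_mul, Real.log_mul hκn.ne' (norm_ne_zero_iff.2 hθ)] at h1
          exact h1
      have hcalc : ∫ θ in (0:ℝ)..(2 * Real.pi),
          (2 * (Real.log ‖κ‖ + Real.log ‖circleMap 0 1 θ - w‖) - Real.log (N a)) =
          2 * Real.pi * (2 * (Real.log ‖κ‖ + Real.posLog ‖w‖) - Real.log (N a)) := by
        have hav : ∫ θ in (0:ℝ)..(2 * Real.pi), Real.log ‖circleMap 0 1 θ - w‖ =
            2 * Real.pi * Real.posLog ‖w‖ := by
          have h1 := circleAverage_log_norm_sub_const_eq_posLog (a := w)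
          rw [Real.circleAverage, smul_eq_mul] at h1
          rw [← h1, ← mul_assoc, mul_inv_cancel₀ hpi.ne', one_mul]
        rw [intervalIntegral.integral_sub ((intervalIntegrable_const.add hci).const_mul 2)
          intervalIntegrable_const, intervalIntegral.integral_const_mul,
          intervalIntegral.integral_add intervalIntegrable_const hci,
          intervalIntegral.integral_const, intervalIntegral.integral_const, hav]
        simp only [smul_eq_mul, sub_zero]
        ring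
      rw [hcalc] at hmono
      have hwn : ‖w‖ = N a / ‖κ‖ := by
        rw [hw, norm_neg, norm_div, Complex.norm_real, Real.norm_eq_abs, abs_of_pos hA]
      have hpos : Real.log (N a) - Real.log ‖κ‖ ≤ Real.posLog ‖w‖ := by
        rw [← Real.log_div hA.ne' hκn.ne', ← hwn]
        exact le_max_right _ _
      rw [← div_eq_inv_mul, le_div_iff₀ hpi]
      nlinarith


/-- The unit ball of `ℂⁿ`. -/
def unitBall (n : ℕ) : Set (Fin n → ℂ) := {z | ∑ j, ‖z j‖ ^ 2 < 1}

lemma unitBall_eq : unitBall n = {z : Fin n → ℂ | N z < 1} := by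
  ext z; simp [unitBall, N_eq]

/-- `ip · w` as a continuous linear map. -/
noncomputable def ipL (w : Fin n → ℂ) : (Fin n → ℂ) →L[ℝ] ℝ :=
  ∑ j, ((w j).re • Complex.reCLM.comp (ContinuousLinearMap.proj (R := ℝ) j) +
    (w j).im • Complex.imCLM.comp (ContinuousLinearMap.proj (R := ℝ) j))

lemma ipL_apply (w x : Fin n → ℂ) : ipL w x = ip x w := by
  unfold ipL ip
  rw [ContinuousLinearMap.sum_apply]
  refine Finset.sum_congr rfl fun j _ => ?_
  simp
  ring

lemma N_contDiff : ContDiff ℝ ∞ (fun z : Fin n → ℂ => N z - 1) := by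
  unfold N
  refine ContDiff.sub (ContDiff.sum fun j _ => ?_) contDiff_const
  exact ((Complex.reCLM.contDiff.comp (contDiff_apply ℝ ℂ j)).pow 2).add
    ((Complex.imCLM.contDiff.comp (contDiff_apply ℝ ℂ j)).pow 2)

lemma fderiv_N (x w : Fin n → ℂ) : fderiv ℝ (fun z => N z - 1) x w = 2 * ip x w := by
  have h1 : DifferentiableAt ℝ (fun z : Fin n → ℂ => N z - 1) x :=
    (N_contDiff.differentiable (by norm_num)) x
  have h2 := h1.hasFDerivAt.hasLineDerivAt w
  have h3 := (hasDerivAt_oneN x w).neg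
  have h4 : HasDerivAt (fun t : ℝ => N (x + t • w) - 1) (2 * ip x w) 0 := by
    have h5 : (fun t : ℝ => N (x + t • w) - 1) = -(fun t : ℝ => 1 - N (x + t • w)) := by
      funext t; simp
    rw [h5]
    exact h3.congr_deriv (by ring)
  exact HasDerivAt.unique h2 h4

lemma hess_N (z v w : Fin n → ℂ) : hess (fun z => N z - 1) z v w = 2 * ip v w := by
  unfold hess
  have h1 : (fun x => fderiv ℝ (fun z => N z - 1) x w) = fun x => ((2:ℝ) • ipL w) x := by
    funext x
    rw [fderiv_N]; simp [ipL_apply]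
  rw [h1, ContinuousLinearMap.fderiv]
  simp [ipL_apply]

lemma cHess_N (z : Fin n → ℂ) : cHess (fun z => N z - 1) z = 1 := by
  ext j k
  simp only [cHess, Matrix.of_apply, hess_N, ip_eR, ip_eI]
  by_cases h : k = j
  · subst h
    simp [eR, eI]
    norm_num
  · have h' : j ≠ k := fun hc => h hc.symm
    simp [eR, eI, Pi.single_eq_of_ne h, Matrix.one_apply_ne h']

lemma unitBall_spc : IsStrictlyPseudoconvex (unitBall n) := by
  have hopen : IsOpen (unitBall n) := by
    rw [unitBall_eq]; exact isOpen_lt N_cont continuous_const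
  have h0 : (0 : Fin n → ℂ) ∈ unitBall n := by
    rw [unitBall_eq]; show N 0 < 1; rw [N_zero]; norm_num
  have hsub : unitBall n ⊆ closedBall 0 1 := by
    intro z hz
    by_contra hc
    have h1 := q_zero z hc
    rw [unitBall_eq] at hz
    have h2 : N z < 1 := hz
    have h3 : 1 - N z ≤ q z := le_max_left _ _
    linarith
  refine ⟨hopen, ?_, isBounded_closedBall.subset hsub, univ, fun z => N z - 1, isOpen_univ,
    subset_univ _, N_contDiff.contDiffOn, ?_, ?_, ?_⟩
  · have hstar : StarConvex ℝ (0 : Fin n → ℂ) (unitBall n) := by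
      rw [starConvex_zero_iff]
      intro x hx t ht0 ht1
      rw [unitBall_eq] at hx ⊢
      have h1 : N (t • x) = t ^ 2 * N x := by
        have := N_line 0 x t
        simpa [N_zero] using this
      show N (t • x) < 1
      rw [h1]
      have h2 : N x < 1 := hx
      have h3 := N_nonneg x
      have h4 : t ^ 2 ≤ 1 := by nlinarith
      nlinarith [mul_le_mul_of_nonneg_right h4 h3]
    exact (hstar.isPathConnected h0).isConnected
  · rw [unitBall_eq, inter_univ]
    ext z
    simp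
  · intro z hz
    have h1 : N z = 1 := by
      rw [unitBall_eq] at hz
      exact frontier_lt_subset_eq N_cont continuous_const hz
    intro hc
    have h2 := fderiv_N z z
    rw [hc] at h2
    have h3 : ip z z = N z := by
      unfold ip N
      exact Finset.sum_congr rfl fun j _ => by ring
    rw [h3, h1] at h2
    simp at h2
  · intro z _
    rw [cHess_N]
    exact Matrix.PosDef.one

/-- The statement Q1 in dimension `n`: for every bounded strictly pseudoconvex domain `Ω` with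
smooth boundary, every `T > 0`, every plurisubharmonic `u₀` on a neighbourhood `W` of the closure
and every smooth `φ` on `closure Ω × [0,T)` with `φ(z,t) = u₀(z)` on the boundary, the flow has a
solution. -/
def Q1 (n : ℕ) : Prop :=
  ∀ (Ω W : Set (Fin n → ℂ)) (T : ℝ) (u₀ : (Fin n → ℂ) → EReal) (φ : (Fin n → ℂ) → ℝ → ℝ),
    IsStrictlyPseudoconvex Ω → 0 < T → IsOpen W → closure Ω ⊆ W → IsPSH W u₀ →
    ContDiffOn ℝ ∞ (fun p : (Fin n → ℂ) × ℝ => φ p.1 p.2) (closure Ω ×ˢ Ico 0 T) →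
    (∀ z ∈ frontier Ω, ∀ t ∈ Ico 0 T, u₀ z = (φ z t : EReal)) →
    ∃ u, IsSolution Ω T u₀ φ u

/-- **Main result.** In every dimension `n ≥ 1`, Q1 is false; more precisely, for a bounded open
`Ω` the flow has no solution as soon as `u₀` has a positive Lelong number at some point `a` of `Ω`,
i.e. `u₀(z) ≤ c log |z - a| + C` near `a` with `c > 0`. -/
theorem result (n : ℕ) (hn : 1 ≤ n) :
    ¬ Q1 n ∧
    (∀ (Ω : Set (Fin n → ℂ)) (T : ℝ) (u₀ : (Fin n → ℂ) → EReal) (φ : (Fin n → ℂ) → ℝ → ℝ)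
      (a : Fin n → ℂ) (c C : ℝ),
      IsOpen Ω → Bornology.IsBounded Ω → 0 < T →
      ContinuousOn (fun p : (Fin n → ℂ) × ℝ => φ p.1 p.2) (closure Ω ×ˢ Ico 0 T) →
      (∀ z ∈ frontier Ω, ∀ t ∈ Ico 0 T, u₀ z = (φ z t : EReal)) →
      a ∈ Ω → 0 < c → (∀ᶠ z in 𝓝[≠] a, u₀ z ≤ ((c * Real.log ‖z - a‖ + C : ℝ) : EReal)) →
      ¬ ∃ u, IsSolution Ω T u₀ φ u) := by
  have hspc := unitBall_spc (n := n)
  have hbd : ∀ z ∈ frontier (unitBall n), logSq z = ((0 : ℝ) : EReal) := by
    intro z hz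
    have h1 : N z = 1 := by
      rw [unitBall_eq] at hz
      exact frontier_lt_subset_eq N_cont continuous_const hz
    have hne : z ≠ 0 := by
      intro hc; rw [hc, N_zero] at h1; norm_num at h1
    rw [logSq, if_neg hne, ← N_eq, h1, Real.log_one]
  have hno : ∀ T : ℝ, 0 < T → ¬ ∃ u, IsSolution (unitBall n) T logSq (fun _ _ => 0) u := by
    intro T hT
    refine nonexist hn hspc.isOpen hspc.bounded hT continuousOn_const
      (fun z hz t _ => hbd z hz) (a := 0) (c := 2) (C := Real.log n) ?_ (by norm_num) ?_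
    · rw [unitBall_eq]; show N 0 < 1; rw [N_zero]; norm_num
    · filter_upwards [self_mem_nhdsWithin] with z hz
      have hz0 : z ≠ 0 := hz
      have hN := N_pos hz0
      have hnn : 0 < ‖z‖ := norm_pos_iff.2 hz0
      have hn' : (0:ℝ) < n := by exact_mod_cast hn
      rw [logSq, if_neg hz0, ← N_eq, sub_zero, EReal.coe_le_coe_iff]
      have h1 : N z ≤ n * ‖z‖ ^ 2 := by
        rw [N_eq]
        calc ∑ j, ‖z j‖ ^ 2 ≤ ∑ _j : Fin n, ‖z‖ ^ 2 :=
              Finset.sum_le_sum fun j _ => by gcongr; exact norm_le_pi_norm z j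
          _ = n * ‖z‖ ^ 2 := by simp
      have h2 := Real.log_le_log hN h1
      rw [Real.log_mul hn'.ne' (by positivity), Real.log_pow] at h2
      push_cast at h2
      linarith
  refine ⟨?_, ?_⟩
  · intro hQ
    exact hno 1 one_pos (hQ (unitBall n) univ 1 logSq (fun _ _ => 0) hspc one_pos isOpen_univ
      (subset_univ _) logSq_psh contDiffOn_const (fun z hz t _ => hbd z hz))
  · intro Ω T u₀ φ a c C hΩ hb hT hφ hφu ha hc hL
    exact nonexist hn hΩ hb hT hφ hφu ha hc hL

end Pool.Agent.Results.MP_8f0dee_an.LelongObstruction
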